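import Pool.Agent.helper62.TC.BR

/-!
# Half-spaces: the part of a realization above a hyperplane retracts onto the full subcomplex
-/

set_option autoImplicit false
open Topology

noncomputable section
namespace Pool.Agent.helper73.TC

namespace HS
section aux
variable (F : Type) [Field F] {X Y Z : Type} [TopologicalSpace X] [TopologicalSpace Y]
  [TopologicalSpace Z]

theorem push_comp' (g : C(Y, Z)) (f : C(X, Y)) (n : ℕ) (z : SC F X n) :
    push F (g.comp f) n z = push F g n (push F f n z) := by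
  unfold push
  rw [Finsupp.lmapDomain_apply, Finsupp.lmapDomain_apply, Finsupp.lmapDomain_apply,
    ← Finsupp.mapDomain_comp]
  rfl

theorem push_bd' (f : C(X, Y)) (n : ℕ) (z : SC F X (n + 1)) :
    bd F Y n (push F f (n + 1) z) = push F f n (bd F X n z) := by
  unfold bd push
  simp only [LinearMap.sum_apply, LinearMap.smul_apply, Finsupp.lmapDomain_apply, map_sum,
    Finsupp.mapDomain_smul]
  refine Finset.sum_congr rfl fun i _ => ?_
  rw [← Finsupp.mapDomain_comp, ← Finsupp.mapDomain_comp]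
  rfl

theorem push_bdy' (f : C(X, Y)) (n : ℕ) (z : SC F X n) (hz : z ∈ bdy F X n) :
    push F f n z ∈ bdy F Y n := by
  obtain ⟨w, rfl⟩ := hz
  exact ⟨push F f (n + 1) w, push_bd' F f n w⟩

theorem push_cyc' (f : C(X, Y)) (n : ℕ) (z : SC F X n) (hz : z ∈ cyc F X n) :
    push F f n z ∈ cyc F Y n := by
  cases n with
  | zero => exact Submodule.mem_top
  | succ n =>
    have hz' : bd F X n z = 0 := hz
    show bd F Y n (push F f (n + 1) z) = 0
    rw [push_bd', hz', map_zero]

theorem push_id' (n : ℕ) (z : SC F X n) : push F (.id X) n z = z := by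
  unfold push
  rw [Finsupp.lmapDomain_apply]
  have : (fun σ : Sing X n => (ContinuousMap.id X).comp σ) = id := by
    funext σ; exact ContinuousMap.id_comp σ
  rw [this, Finsupp.mapDomain_id]

theorem cancel (g : C(Y, Z)) (f : C(X, Y)) (r : C(Y, X)) (hfr : (f.comp r).Homotopic (.id Y))
    (n : ℕ) (h : HI F (g.comp f) n) : HI F g n := by
  intro z hz hb
  have h1 : push F f n (push F r n z) - z ∈ bdy F Y n := by
    have := homotopic_push F (f.comp r) (.id Y) hfr n z hz
    rwa [push_comp', push_id'] at this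
  have h2 : push F (g.comp f) n (push F r n z) ∈ bdy F Z n := by
    rw [push_comp']
    have h3 := push_bdy' F g n _ h1
    rw [map_sub] at h3
    have := Submodule.add_mem _ h3 hb
    rwa [sub_add_cancel] at this
  have h3 := push_bdy' F f n _ (h _ (push_cyc' F r n z hz) h2)
  have := Submodule.sub_mem _ h3 h1
  rwa [sub_sub_cancel] at this

end aux
end HS

section HS
variable (F : Type) [Field F] {V : Type} [Fintype V] [DecidableEq V] (C : Set (Finset V))

/-- the full subcomplex on the vertices satisfying `P` -/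
def ind (P : V → Prop) : Set (Finset V) := {s | s ∈ C ∧ ∀ x ∈ s, P x}

theorem ind_subset (P : V → Prop) : ind C P ⊆ C := fun _ h => h.1

/-- the part of the realization where the affine function `a` is larger than `c` -/
def above (a : V → ℝ) (c : ℝ) : Set (Real C) := {w | c < ∑ x, (w.1 : V → ℝ) x * a x}

/-- a point of the simplex whose support is strictly above `c` is strictly above `c` -/
theorem HS.lt_sum (w : stdSimplex ℝ V) (a : V → ℝ) (c : ℝ)
    (h : ∀ x, 0 < (w : V → ℝ) x → c < a x) : c < ∑ x, (w : V → ℝ) x * a x := by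
  have h1 : ∑ x, (w : V → ℝ) x = 1 := w.2.2
  have h0 : ∀ x, 0 ≤ (w : V → ℝ) x := w.2.1
  have hc : c = ∑ x, (w : V → ℝ) x * c := by rw [← Finset.sum_mul, h1, one_mul]
  obtain ⟨x0, hx0⟩ : ∃ x, 0 < (w : V → ℝ) x := by
    by_contra hne
    push Not at hne
    have : ∑ x, (w : V → ℝ) x ≤ 0 := Finset.sum_nonpos fun x _ => hne x
    linarith
  rw [hc]
  refine Finset.sum_lt_sum (fun x _ => ?_) ⟨x0, Finset.mem_univ _, ?_⟩
  · rcases (h0 x).lt_or_eq with hx | hx
    · exact (mul_lt_mul_of_pos_left (by simpa using (h x hx)) hx).le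
    · rw [← hx]; simp
  · exact mul_lt_mul_of_pos_left (h x0 hx0) hx0

/-- the mass of `w` on the vertices above `c` -/
def HS.mass (a : V → ℝ) (c : ℝ) (w : V → ℝ) : ℝ := ∑ x, if c < a x then w x else 0

theorem HS.mass_pos (a : V → ℝ) (c : ℝ) (w : stdSimplex ℝ V)
    (h : c < ∑ x, (w : V → ℝ) x * a x) : 0 < HS.mass a c w := by
  have h1 : ∑ x, (w : V → ℝ) x = 1 := w.2.2
  have h0 : ∀ x, 0 ≤ (w : V → ℝ) x := w.2.1
  by_contra hne
  have hnn : ∀ x ∈ Finset.univ, 0 ≤ (if c < a x then (w : V → ℝ) x else 0) := by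
    intro x _; split_ifs
    · exact h0 x
    · exact le_rfl
  have hz : HS.mass a c w = 0 := le_antisymm (not_lt.1 hne) (Finset.sum_nonneg hnn)
  have hz' : ∀ x, c < a x → (w : V → ℝ) x = 0 := by
    intro x hx
    have := (Finset.sum_eq_zero_iff_of_nonneg hnn).1 hz x (Finset.mem_univ x)
    rwa [if_pos hx] at this
  have hle : ∑ x, (w : V → ℝ) x * a x ≤ ∑ x, (w : V → ℝ) x * c := by
    refine Finset.sum_le_sum fun x _ => ?_
    by_cases hx : c < a x
    · rw [hz' x hx]; simp
    · exact mul_le_mul_of_nonneg_left (not_lt.1 hx) (h0 x)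
  rw [← Finset.sum_mul, h1, one_mul] at hle
  exact absurd h (not_lt.2 hle)

/-- the normalised restriction -/
def HS.res (a : V → ℝ) (c : ℝ) (w : V → ℝ) : V → ℝ :=
  fun x => (if c < a x then w x else 0) / HS.mass a c w

theorem HS.res_nonneg (a : V → ℝ) (c : ℝ) (w : stdSimplex ℝ V)
    (h : c < ∑ x, (w : V → ℝ) x * a x) (x : V) : 0 ≤ HS.res a c w x := by
  have h0 : ∀ x, 0 ≤ (w : V → ℝ) x := w.2.1
  unfold HS.res
  refine div_nonneg ?_ (HS.mass_pos a c w h).le
  split_ifs
  · exact h0 x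
  · exact le_rfl

theorem HS.res_sum (a : V → ℝ) (c : ℝ) (w : stdSimplex ℝ V)
    (h : c < ∑ x, (w : V → ℝ) x * a x) : ∑ x, HS.res a c w x = 1 := by
  unfold HS.res
  rw [← Finset.sum_div]
  exact div_self (HS.mass_pos a c w h).ne'

theorem HS.res_pos_iff (a : V → ℝ) (c : ℝ) (w : stdSimplex ℝ V)
    (h : c < ∑ x, (w : V → ℝ) x * a x) (x : V) :
    0 < HS.res a c w x ↔ 0 < (w : V → ℝ) x ∧ c < a x := by
  unfold HS.res
  have hm := HS.mass_pos a c w h
  by_cases hx : c < a x
  · rw [if_pos hx, div_pos_iff_of_pos_right hm]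
    exact ⟨fun h => ⟨h, hx⟩, fun h => h.1⟩
  · rw [if_neg hx, zero_div]
    exact ⟨fun h => absurd h (lt_irrefl _), fun h => absurd h.2 hx⟩

/-- the normalised restriction, as a point of the standard simplex -/
def HS.resS (a : V → ℝ) (c : ℝ) (w : stdSimplex ℝ V)
    (h : c < ∑ x, (w : V → ℝ) x * a x) : stdSimplex ℝ V :=
  ⟨HS.res a c w, HS.res_nonneg a c w h, HS.res_sum a c w h⟩

theorem HS.res_mem (hC : DownClosed C) (a : V → ℝ) (c : ℝ) (w : Real C)
    (h : c < ∑ x, (w.1 : V → ℝ) x * a x) :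
    (Finset.univ.filter fun v => 0 < (HS.resS a c w.1 h : V → ℝ) v) ∈
      ind C (fun x => c < a x) := by
  have hiff : ∀ x, 0 < (HS.resS a c w.1 h : V → ℝ) x ↔ 0 < (w.1 : V → ℝ) x ∧ c < a x :=
    fun x => HS.res_pos_iff a c w.1 h x
  refine ⟨hC _ w.2 _ ?_, ?_⟩
  · intro x hx
    rw [Finset.mem_filter] at hx ⊢
    exact ⟨hx.1, ((hiff x).1 hx.2).1⟩
  · intro x hx
    rw [Finset.mem_filter] at hx
    exact ((hiff x).1 hx.2).2

theorem HS.continuous_mass (a : V → ℝ) (c : ℝ) : Continuous (HS.mass a c) := by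
  unfold HS.mass
  refine continuous_finsetSum _ fun x _ => ?_
  split_ifs
  · exact continuous_apply x
  · exact continuous_const

theorem HS.continuous_coe : Continuous fun w : Real C => ((w.1 : stdSimplex ℝ V) : V → ℝ) :=
  continuous_subtype_val.comp continuous_subtype_val

theorem HS.continuous_res (a : V → ℝ) (c : ℝ) :
    Continuous fun w : above C a c => HS.res a c ((w.1.1 : stdSimplex ℝ V) : V → ℝ) := by
  have h1 : Continuous fun w : above C a c => ((w.1.1 : stdSimplex ℝ V) : V → ℝ) :=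
    (HS.continuous_coe C).comp continuous_subtype_val
  unfold HS.res
  refine continuous_pi fun x => ?_
  refine Continuous.div ?_ ((HS.continuous_mass a c).comp h1) ?_
  · split_ifs
    · exact (continuous_apply x).comp h1
    · exact continuous_const
  · intro w
    exact (HS.mass_pos a c w.1.1 w.2).ne'

/-- the retraction -/
def HS.retr (hC : DownClosed C) (a : V → ℝ) (c : ℝ) :
    C(above C a c, Real (ind C (fun x => c < a x))) :=
  ⟨fun w => ⟨HS.resS a c w.1.1 w.2, HS.res_mem C hC a c w.1 w.2⟩,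
    (((HS.continuous_res C a c).subtype_mk _).subtype_mk _)⟩

/-- the inclusion of the full subcomplex -/
def HS.incl (a : V → ℝ) (c : ℝ) : C(Real (ind C (fun x => c < a x)), above C a c) :=
  ⟨fun w => ⟨⟨w.1, w.2.1⟩, HS.lt_sum w.1 a c fun x hx =>
      w.2.2 x (Finset.mem_filter.2 ⟨Finset.mem_univ _, hx⟩)⟩,
    ((continuous_subtype_val.subtype_mk _).subtype_mk _)⟩

/-- the straight line homotopy -/
def HS.line (a : V → ℝ) (c : ℝ) (t : unitInterval) (w : stdSimplex ℝ V)
    (h : c < ∑ x, (w : V → ℝ) x * a x) : stdSimplex ℝ V :=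
  ⟨fun x => (1 - (t : ℝ)) * (w : V → ℝ) x + t * HS.res a c w x, by
    intro x
    have h1 := t.2.1
    have h2 := t.2.2
    have h3 : 0 ≤ (w : V → ℝ) x := w.2.1 x
    have h4 := HS.res_nonneg a c w h x
    have h5 : 0 ≤ 1 - (t : ℝ) := by linarith
    positivity, by
    rw [Finset.sum_add_distrib, ← Finset.mul_sum, ← Finset.mul_sum, HS.res_sum a c w h,
      show ∑ x, (w : V → ℝ) x = 1 from w.2.2]
    ring⟩

theorem HS.line_mem (hC : DownClosed C) (a : V → ℝ) (c : ℝ) (t : unitInterval) (w : Real C)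
    (h : c < ∑ x, (w.1 : V → ℝ) x * a x) :
    (Finset.univ.filter fun v => 0 < (HS.line a c t w.1 h : V → ℝ) v) ∈ C := by
  refine hC _ w.2 _ ?_
  intro x hx
  rw [Finset.mem_filter] at hx ⊢
  refine ⟨hx.1, ?_⟩
  by_contra hne
  have h0 : (w.1 : V → ℝ) x = 0 := le_antisymm (not_lt.1 hne) (w.1.2.1 x)
  have h1 : HS.res a c w.1 x = 0 := by
    unfold HS.res
    rw [h0]; simp
  have h2 : (HS.line a c t w.1 h : V → ℝ) x = (1 - (t : ℝ)) * (w.1 : V → ℝ) x +
    t * HS.res a c w.1 x := rfl
  rw [h2, h0, h1] at hx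
  simp at hx

theorem HS.line_above (a : V → ℝ) (c : ℝ) (t : unitInterval) (w : stdSimplex ℝ V)
    (h : c < ∑ x, (w : V → ℝ) x * a x) : c < ∑ x, (HS.line a c t w h : V → ℝ) x * a x := by
  have hr : c < ∑ x, (HS.resS a c w h : V → ℝ) x * a x :=
    HS.lt_sum _ a c fun x hx => ((HS.res_pos_iff a c w h x).1 hx).2
  have he : ∑ x, (HS.line a c t w h : V → ℝ) x * a x =
      (1 - (t : ℝ)) * ∑ x, (w : V → ℝ) x * a x + t * ∑ x, (HS.resS a c w h : V → ℝ) x * a x := by
    rw [Finset.mul_sum, Finset.mul_sum, ← Finset.sum_add_distrib]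
    refine Finset.sum_congr rfl fun x _ => ?_
    show ((1 - (t : ℝ)) * (w : V → ℝ) x + t * HS.res a c w x) * a x =
      (1 - (t : ℝ)) * ((w : V → ℝ) x * a x) + t * (HS.res a c w x * a x)
    ring
  rw [he]
  have h1 := t.2.1
  have h2 := t.2.2
  rcases h1.lt_or_eq with h3 | h3
  · have h4 : (1 - (t : ℝ)) * c ≤ (1 - (t : ℝ)) * ∑ x, (w : V → ℝ) x * a x :=
      mul_le_mul_of_nonneg_left h.le (by linarith)
    have h5 : (t : ℝ) * c < t * ∑ x, (HS.resS a c w h : V → ℝ) x * a x :=
      mul_lt_mul_of_pos_left hr h3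
    linarith
  · rw [← h3]; linarith

theorem HS.homotopic (hC : DownClosed C) (a : V → ℝ) (c : ℝ) :
    ((HS.incl C a c).comp (HS.retr C hC a c)).Homotopic (.id _) := by
  refine ContinuousMap.Homotopic.symm ⟨⟨⟨fun p => ⟨⟨HS.line a c p.1 p.2.1.1 p.2.2,
    HS.line_mem C hC a c p.1 p.2.1 p.2.2⟩, HS.line_above a c p.1 p.2.1.1 p.2.2⟩, ?_⟩, ?_, ?_⟩⟩
  · refine Continuous.subtype_mk (Continuous.subtype_mk (Continuous.subtype_mk ?_ _) _) _
    refine continuous_pi fun x => ?_
    have h1 : Continuous fun p : unitInterval × above C a c =>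
        ((p.2.1.1 : stdSimplex ℝ V) : V → ℝ) :=
      ((HS.continuous_coe C).comp continuous_subtype_val).comp continuous_snd
    have h2 : Continuous fun p : unitInterval × above C a c =>
        HS.res a c ((p.2.1.1 : stdSimplex ℝ V) : V → ℝ) :=
      (HS.continuous_res C a c).comp continuous_snd
    have h3 : Continuous fun p : unitInterval × above C a c => (p.1 : ℝ) :=
      continuous_subtype_val.comp continuous_fst
    exact ((continuous_const.sub h3).mul ((continuous_apply x).comp h1)).add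
      (h3.mul ((continuous_apply x).comp h2))
  · intro w
    apply Subtype.ext; apply Subtype.ext; apply Subtype.ext
    funext x
    show (1 - ((0 : unitInterval) : ℝ)) * (w.1.1 : V → ℝ) x +
      ((0 : unitInterval) : ℝ) * HS.res a c w.1.1 x = (w.1.1 : V → ℝ) x
    simp
  · intro w
    apply Subtype.ext; apply Subtype.ext; apply Subtype.ext
    funext x
    show (1 - ((1 : unitInterval) : ℝ)) * (w.1.1 : V → ℝ) x +
      ((1 : unitInterval) : ℝ) * HS.res a c w.1.1 x = HS.res a c w.1.1 x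
    simp

theorem HI_above (hC : DownClosed C) (a : V → ℝ) (c : ℝ) (n : ℕ)
    (h : HI F (Real.incl (ind_subset C (fun x => c < a x))) n) :
    HI F (inc (above C a c)) n :=
  HS.cancel F (inc (above C a c)) (HS.incl C a c) (HS.retr C hC a c) (HS.homotopic C hC a c) n h

end HS

end Pool.Agent.helper73.TC
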